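import Pool.Agent.H8.DI.Targets

/-!
# Module DE of the board dik_modules: the axioms for two equivalence relations are definable
-/

set_option autoImplicit false

namespace Pool.Agent.H88.DI

open Pool.Agent.H16.TO Pool.Agent.H8.DI

/-- the counting conditions -/
inductive Ix : Type
  | one (c : Bool) : Ix
  | mat (j : Fin 4) : Ix
  | mat' (j : Fin 4) : Ix
  | lin (j : Fin 4) : Ix
  | lin' (j : Fin 4) : Ix
  | fx0 : Ix
  | fy0 : Ix
  | own : Ix
  | cor : Ix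
deriving DecidableEq, Fintype

section
variable {Q : Type}

/-- the pair condition -/
def chi (U : Bool → Bool → Bool → Bool → Q → Prop) (Hh Vv : Q → Q → Prop) : Pr2 (El Q) 4 :=
  fun s s' a _ _ =>
    (a 0 → Same s s') ∧
    (s.k = 0 → s.c = false → s.fx = true → s.z = true) ∧
    (s.k = 0 → s.c = true → s.fy = true → s.z = true) ∧
    U s.fx s.lx s.fy s.ly s.q ∧
    (s.k = s'.k → (a 0 ↔ a 1)) ∧
    (a 1 → a 3 → s.k = 0 → s'.k = 1 → Hh s.q s'.q ∧ s'.fy = s.fy ∧ s'.ly = s.ly) ∧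
    (a 1 → a 3 → s.k = 0 → s'.k = 2 → Vv s.q s'.q ∧ s'.fx = s.fx ∧ s'.lx = s.lx)

/-- the hypotheses of the counting conditions -/
def sg : Ix → El Q → Prop
  | .one _, _ => True
  | .mat j, s => j ≠ 0 ∧ src j s
  | .mat' j, s => j ≠ 0 ∧ s.k = j
  | .lin j, s => (j = 1 ∨ j = 2) ∧ lnk 0 j s
  | .lin' j, s => (j = 1 ∨ j = 2) ∧ s.k = j
  | .fx0, s => s.fx = false
  | .fy0, s => s.fy = false
  | .own, _ => True
  | .cor, _ => True

/-- the conditions which are counted -/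
def Gg : Ix → Pr2 (El Q) 4
  | .one c => fun _ s' a _ _ => a 0 ∧ s'.k = 0 ∧ s'.c = c ∧ s'.z = true
  | .mat j => fun s s' a _ _ => a 0 ∧ a 2 ∧ s'.k = j ∧ s'.c = s.c
  | .mat' j => fun s s' _ b _ => b 0 ∧ b 2 ∧ src j s' ∧ s'.c = s.c
  | .lin j => fun s s' a _ _ => a 1 ∧ a 3 ∧ s'.k = j ∧ s'.c = s.c
  | .lin' j => fun s s' _ b _ => b 1 ∧ b 3 ∧ lnk 0 j s' ∧ s'.c = s.c
  | .fx0 => fun _ s' a _ _ => a 0 ∧ s'.k = 0 ∧ s'.c = false ∧ s'.z = false
  | .fy0 => fun _ s' a _ _ => a 0 ∧ s'.k = 0 ∧ s'.c = true ∧ s'.z = false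
  | .own => fun _ s' _ b _ => b 1 ∧ s'.k = 0
  | .cor => fun _ s' _ _ _ => head s' ∧ s'.fx = true ∧ s'.fy = true

/-- the kinds of the counting conditions -/
def md : Ix → Md
  | .one _ => .one
  | .mat _ => .one
  | .mat' _ => .one
  | .lin _ => .one
  | .lin' _ => .one
  | .fx0 => .ex
  | .fy0 => .ex
  | .own => .ex
  | .cor => .one

theorem ax_iff (U : Bool → Bool → Bool → Bool → Q → Prop) (Hh Vv : Q → Q → Prop) {V : Type}
    [Nonempty V] (st : V → El Q) (R : ℕ → V → V → Prop) (hE : Equivalence (R 0))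
    (hF : Equivalence (R 1)) :
    ((∀ x y, (chi U Hh Vv).ev st R x y) ∧
      ∀ i x, sg i (st x) → (md i).Holds (fun y => (Gg (Q := Q) i).ev st R x y)) ↔
      CellAx U st (R 0) (R 2) ∧ LinkAx Hh Vv st (R 0) (R 1) (R 3) := by
  constructor
  · rintro ⟨h1, h2⟩
    refine ⟨⟨hE, fun x y => (h1 x y).1, fun x c => h2 (.one c) x trivial,
      fun j hj x hx => h2 (.mat j) x ⟨hj, hx⟩, fun j hj y hy => h2 (.mat' j) y ⟨hj, hy⟩,
      fun x => (h1 x x).2.1, fun x hx => h2 .fx0 x hx, fun x => (h1 x x).2.2.1,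
      fun x hx => h2 .fy0 x hx, fun x => (h1 x x).2.2.2.1,
      h2 .cor (Classical.arbitrary V) trivial⟩,
      ⟨hF, fun x y => (h1 x y).2.2.2.2.1, fun y => h2 .own y trivial,
      fun j hj x hx => h2 (.lin j) x ⟨hj, hx⟩, fun j hj y hy => h2 (.lin' j) y ⟨hj, hy⟩,
      fun x y => (h1 x y).2.2.2.2.2.1, fun x y => (h1 x y).2.2.2.2.2.2⟩⟩
  · rintro ⟨hC, hL⟩
    refine ⟨fun x y => ⟨hC.same x y, hC.fx1 x, hC.fy1 x, hC.un x, hL.blk x y, hL.ho x y,
      hL.ve x y⟩, fun i x hi => ?_⟩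
    cases i with
    | one c => exact hC.one x c
    | mat j => exact hC.mat j hi.1 x hi.2
    | mat' j => exact hC.mat' j hi.1 x hi.2
    | lin j => exact hL.lin j hi.1 x hi.2
    | lin' j => exact hL.lin' j hi.1 x hi.2
    | fx0 => exact hC.fx0 x hi
    | fy0 => exact hC.fy0 x hi
    | own => exact hL.own x
    | cor => exact hC.cor

end

theorem pf_de (hDF : K_DF) : K_DE := by
  intro Q _ U Hh Vv
  obtain ⟨φ, hφ⟩ := hDF (El Q) 4 (chi U Hh Vv) Ix sg Gg md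
  refine ⟨φ, fun V _ _ E F hE hF => ?_⟩
  constructor
  · rintro ⟨P, R, rfl, rfl, h⟩
    obtain ⟨st, hst⟩ := (hφ V R).1 ⟨P, h⟩
    exact ⟨st, R 2, R 3, (ax_iff U Hh Vv st R hE hF).1 hst⟩
  · rintro ⟨st, M, N, h⟩
    set R : ℕ → V → V → Prop := fun i => if i = 0 then E else if i = 1 then F else
      if i = 2 then M else N with hR
    obtain ⟨P, hP⟩ := (hφ V R).2 ⟨st, (ax_iff U Hh Vv st R hE hF).2 h⟩
    exact ⟨P, R, rfl, rfl, hP⟩

end Pool.Agent.H88.DI
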