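import Pool.Agent.H8.DI.Targets

/-!
# Module DF of the board dik_modules: definability of pair and counting conditions
-/

set_option autoImplicit false

namespace Pool.Agent.H88.DI

open Pool.Agent.H16.TO Pool.Agent.H8.DI

/-- predicates of two elements of a structure -/
abbrev Pd : Type 1 := ∀ (V : Type), (ℕ → V → Prop) → (ℕ → V → V → Prop) → V → V → Prop

/-- the predicate is definable on finite structures -/
def Dd (F : Pd) : Prop :=
  ∃ φ : C2, ∀ (V : Type) [Finite V] (P : ℕ → V → Prop) (R : ℕ → V → V → Prop) (s : Bool → V),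
    φ.Sat P R s ↔ F V P R (s false) (s true)

theorem dd_congr {F F' : Pd} (h : Dd F) (he : ∀ (V : Type) [Finite V] P R (x y : V),
    (F V P R x y ↔ F' V P R x y)) : Dd F' := by
  obtain ⟨φ, hφ⟩ := h
  refine ⟨φ, fun V _ P R s => ?_⟩
  rw [hφ V P R s]
  exact he V P R _ _

theorem dd_un (i : ℕ) : Dd (fun _ P _ x _ => P i x) :=
  ⟨.un i false, fun _ _ _ _ _ => Iff.rfl⟩

theorem dd_un' (i : ℕ) : Dd (fun _ P _ _ y => P i y) :=
  ⟨.un i true, fun _ _ _ _ _ => Iff.rfl⟩

theorem dd_bi (i : ℕ) : Dd (fun _ _ R x y => R i x y) :=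
  ⟨.bi i false true, fun _ _ _ _ _ => Iff.rfl⟩

theorem dd_bi' (i : ℕ) : Dd (fun _ _ R x y => R i y x) :=
  ⟨.bi i true false, fun _ _ _ _ _ => Iff.rfl⟩

theorem dd_eq : Dd (fun _ _ _ x y => x = y) :=
  ⟨.eq false true, fun _ _ _ _ _ => Iff.rfl⟩

theorem dd_not {F : Pd} (h : Dd F) : Dd (fun V P R x y => ¬ F V P R x y) := by
  obtain ⟨φ, hφ⟩ := h
  refine ⟨.neg φ, fun V _ P R s => ?_⟩
  show ¬ φ.Sat P R s ↔ _
  rw [hφ V P R s]

theorem dd_and {F F' : Pd} (h : Dd F) (h' : Dd F') :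
    Dd (fun V P R x y => F V P R x y ∧ F' V P R x y) := by
  obtain ⟨φ, hφ⟩ := h
  obtain ⟨ψ, hψ⟩ := h'
  refine ⟨.and φ ψ, fun V _ P R s => ?_⟩
  show φ.Sat P R s ∧ ψ.Sat P R s ↔ _
  rw [hφ V P R s, hψ V P R s]

theorem dd_imp {F F' : Pd} (h : Dd F) (h' : Dd F') :
    Dd (fun V P R x y => F V P R x y → F' V P R x y) := by
  refine dd_congr (dd_not (dd_and h (dd_not h'))) ?_
  intro V _ P R x y
  tauto

theorem dd_iff {F F' : Pd} (h : Dd F) (h' : Dd F') :
    Dd (fun V P R x y => F V P R x y ↔ F' V P R x y) := by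
  refine dd_congr (dd_and (dd_imp h h') (dd_imp h' h)) ?_
  intro V _ P R x y
  tauto

theorem dd_const (p : Prop) : Dd (fun _ _ _ _ _ => p) := by
  by_cases hp : p
  · refine ⟨.eq false false, fun V _ P R s => ?_⟩
    show s false = s false ↔ p
    simp [hp]
  · refine ⟨.neg (.eq false false), fun V _ P R s => ?_⟩
    show ¬ (s false = s false) ↔ p
    simp [hp]

theorem dd_cntT {F : Pd} (k : ℕ) (h : Dd F) :
    Dd (fun V P R x _ => k ≤ {b | F V P R x b}.ncard) := by
  obtain ⟨φ, hφ⟩ := h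
  refine ⟨.cnt k true φ, fun V _ P R s => ?_⟩
  show k ≤ {a | φ.Sat P R (Function.update s true a)}.ncard ↔ k ≤ {a | F V P R (s false) a}.ncard
  have he : {a | φ.Sat P R (Function.update s true a)} = {a | F V P R (s false) a} := by
    ext a
    show φ.Sat P R (Function.update s true a) ↔ F V P R (s false) a
    rw [hφ V P R _]
    simp
  rw [he]

theorem dd_allFin (k : ℕ) (F : Fin k → Pd) (h : ∀ i, Dd (F i)) :
    Dd (fun V P R x y => ∀ i, F i V P R x y) := by
  induction k with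
  | zero =>
    refine dd_congr (dd_const True) ?_
    intro V _ P R x y
    simp
  | succ k ih =>
    refine dd_congr (dd_and (h 0) (ih (fun i => F i.succ) fun i => h i.succ)) ?_
    intro V _ P R x y
    exact (Fin.forall_fin_succ (P := fun i => F i V P R x y)).symm

theorem dd_all (ι : Type) [Finite ι] (F : ι → Pd) (h : ∀ i, Dd (F i)) :
    Dd (fun V P R x y => ∀ i, F i V P R x y) := by
  obtain ⟨k, ⟨e⟩⟩ := Finite.exists_equiv_fin ι
  refine dd_congr (dd_allFin k (fun i => F (e.symm i)) fun i => h _) ?_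
  intro V _ P R x y
  refine ⟨fun hh i => ?_, fun hh i => hh _⟩
  have := hh (e i)
  rwa [e.symm_apply_apply] at this

theorem dd_ex (ι : Type) [Finite ι] (F : ι → Pd) (h : ∀ i, Dd (F i)) :
    Dd (fun V P R x y => ∃ i, F i V P R x y) := by
  refine dd_congr (dd_not (dd_all ι (fun i V P R x y => ¬ F i V P R x y)
    fun i => dd_not (h i))) ?_
  intro V _ P R x y
  push Not
  exact Iff.rfl

section
variable {St : Type} [Finite St] (enc : St → ℕ)

/-- the state of `x` is `s` -/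
def Sx (V : Type) (P : ℕ → V → Prop) (s : St) (x : V) : Prop :=
  P (enc s) x ∧ ∀ s', s' ≠ s → ¬ P (enc s') x

theorem dd_sx (s : St) : Dd (fun V P _ x _ => Sx enc V P s x) :=
  dd_and (dd_un _) (dd_all St (fun s' _ P _ x _ => s' ≠ s → ¬ P (enc s') x)
    fun _ => dd_imp (dd_const _) (dd_not (dd_un _)))

theorem dd_sx' (s : St) : Dd (fun V P _ _ y => Sx enc V P s y) :=
  dd_and (dd_un' _) (dd_all St (fun s' _ P _ _ y => s' ≠ s → ¬ P (enc s') y)
    fun _ => dd_imp (dd_const _) (dd_not (dd_un' _)))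

/-- the pair condition -/
def EV {m : ℕ} (G : Pr2 St m) (V : Type) (P : ℕ → V → Prop) (R : ℕ → V → V → Prop) (x y : V) :
    Prop :=
  ∃ (s s' : St) (a b : Fin m → Prop) (c : Prop), Sx enc V P s x ∧ Sx enc V P s' y ∧
    (∀ i : Fin m, R i x y ↔ a i) ∧ (∀ i : Fin m, R i y x ↔ b i) ∧ (x = y ↔ c) ∧ G s s' a b c

theorem dd_ev {m : ℕ} (G : Pr2 St m) : Dd (fun V P R x y => EV enc G V P R x y) := by
  unfold EV
  refine dd_ex St _ fun s => dd_ex St _ fun s' => dd_ex (Fin m → Prop) _ fun a =>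
    dd_ex (Fin m → Prop) _ fun b => dd_ex Prop _ fun c => ?_
  exact dd_and (dd_sx enc s) (dd_and (dd_sx' enc s') (dd_and
    (dd_all (Fin m) _ fun i => dd_iff (dd_bi _) (dd_const _)) (dd_and
    (dd_all (Fin m) _ fun i => dd_iff (dd_bi' _) (dd_const _)) (dd_and
    (dd_iff dd_eq (dd_const _)) (dd_const _)))))

variable {enc}

omit [Finite St] in
theorem sx_iff {V : Type} {P : ℕ → V → Prop} {st : V → St}
    (h : ∀ x s, P (enc s) x ↔ s = st x) (s : St) (x : V) : Sx enc V P s x ↔ s = st x := by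
  unfold Sx
  rw [h]
  constructor
  · exact fun hh => hh.1
  · rintro rfl
    exact ⟨rfl, fun s' hs' hP => hs' ((h _ _).1 hP)⟩

omit [Finite St] in
theorem ev_iff {m : ℕ} (G : Pr2 St m) {V : Type} {P : ℕ → V → Prop} (R : ℕ → V → V → Prop)
    {st : V → St} (h : ∀ x s, P (enc s) x ↔ s = st x) (x y : V) :
    EV enc G V P R x y ↔ G.ev st R x y := by
  unfold EV Pr2.ev
  constructor
  · rintro ⟨s, s', a, b, c, h1, h2, h3, h4, h5, h6⟩
    rw [sx_iff h] at h1 h2
    have ha : (fun i : Fin m => R i x y) = a := funext fun i => propext (h3 i)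
    have hb : (fun i : Fin m => R i y x) = b := funext fun i => propext (h4 i)
    rw [ha, hb, propext h5, ← h1, ← h2]
    exact h6
  · intro hG
    exact ⟨st x, st y, _, _, _, (sx_iff h _ _).2 rfl, (sx_iff h _ _).2 rfl, fun _ => Iff.rfl,
      fun _ => Iff.rfl, Iff.rfl, hG⟩

end

/-- the counting condition as a predicate -/
def Cn (d : Md) {V : Type} (p : V → Prop) : Prop :=
  match d with
  | .one => 1 ≤ {y | p y}.ncard ∧ ¬ 2 ≤ {y | p y}.ncard
  | .ex => 1 ≤ {y | p y}.ncard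
  | .am => ¬ 2 ≤ {y | p y}.ncard

theorem one_le_iff {V : Type} [Finite V] (p : V → Prop) : 1 ≤ {y | p y}.ncard ↔ ∃ y, p y := by
  rw [Nat.one_le_iff_ne_zero, ← Nat.pos_iff_ne_zero, Set.ncard_pos (Set.toFinite _)]
  exact Iff.rfl

theorem two_le_iff {V : Type} [Finite V] (p : V → Prop) :
    ¬ 2 ≤ {y | p y}.ncard ↔ ∀ y y', p y → p y' → y = y' := by
  rw [not_le, Nat.lt_succ_iff, Set.ncard_le_one (Set.toFinite _)]
  exact ⟨fun h y y' hy hy' => h y hy y' hy', fun h y hy y' hy' => h y y' hy hy'⟩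

theorem cn_iff (d : Md) {V : Type} [Finite V] (p : V → Prop) : Cn d p ↔ d.Holds p := by
  cases d with
  | one =>
    unfold Cn Md.Holds
    simp only
    rw [one_le_iff, two_le_iff]
    constructor
    · rintro ⟨⟨y, hy⟩, h⟩
      exact ⟨y, hy, fun y' hy' => h _ _ hy' hy⟩
    · rintro ⟨y, hy, h⟩
      exact ⟨⟨y, hy⟩, fun a b ha hb => (h a ha).trans (h b hb).symm⟩
  | ex => exact one_le_iff p
  | am => exact two_le_iff p

theorem dd_cn (d : Md) {F : Pd} (h : Dd F) : Dd (fun V P R x _ => Cn d (fun y => F V P R x y)) := by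
  cases d with
  | one => exact dd_and (dd_cntT 1 h) (dd_not (dd_cntT 2 h))
  | ex => exact dd_cntT 1 h
  | am => exact dd_not (dd_cntT 2 h)

theorem pf_df : K_DF := by
  intro St _ m χ ι _ σ G d
  obtain ⟨k, ⟨e⟩⟩ := Finite.exists_equiv_fin St
  obtain ⟨enc, henc⟩ : ∃ enc : St → ℕ, Function.Injective enc :=
    ⟨fun s => (e s : ℕ), fun s s' h => e.injective (Fin.ext h)⟩
  have hF : Dd (fun V P R x y => (∃ s : St, Sx enc V P s x) ∧ EV enc χ V P R x y ∧
      ∀ i : ι, (∃ s : St, Sx enc V P s x ∧ σ i s) →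
        Cn (d i) (fun y => EV enc (G i) V P R x y)) := by
    refine dd_and (dd_ex St _ fun s => dd_sx enc s) (dd_and (dd_ev enc χ) (dd_all ι _ fun i =>
      dd_imp (dd_ex St _ fun s => dd_and (dd_sx enc s) (dd_const _)) (dd_cn _ (dd_ev enc _))))
  obtain ⟨φ, hφ⟩ := hF
  refine ⟨φ, fun V _ R => ?_⟩
  constructor
  · rintro ⟨P, hP⟩
    have hP' : ∀ x y : V, _ := fun x y => (hφ V P R (fun b => if b then y else x)).1 (hP _)
    simp only [Bool.false_eq_true, if_false, if_true] at hP'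
    have h1 : ∀ x : V, ∃ s : St, Sx enc V P s x := fun x => (hP' x x).1
    choose st hst using h1
    have hst' : ∀ x s, P (enc s) x ↔ s = st x := by
      intro x s
      constructor
      · intro h
        by_contra hne
        exact (hst x).2 s hne h
      · rintro rfl
        exact (hst x).1
    refine ⟨st, fun x y => (ev_iff χ R hst' x y).1 (hP' x y).2.1, fun i x hσ => ?_⟩
    have h2 := (hP' x x).2.2 i ⟨st x, (sx_iff hst' _ _).2 rfl, hσ⟩
    rw [cn_iff] at h2
    have h3 : (fun y => EV enc (G i) V P R x y) = fun y => (G i).ev st R x y :=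
      funext fun y => propext (ev_iff (G i) R hst' x y)
    rwa [h3] at h2
  · rintro ⟨st, h1, h2⟩
    refine ⟨fun n x => n = enc (st x), fun s => ?_⟩
    have hst' : ∀ x s, (fun n x => n = enc (st x)) (enc s) x ↔ s = st x :=
      fun x s => henc.eq_iff
    rw [hφ]
    refine ⟨⟨st (s false), (sx_iff hst' _ _).2 rfl⟩, (ev_iff χ R hst' _ _).2 (h1 _ _), ?_⟩
    rintro i ⟨s', hs', hσ⟩
    rw [sx_iff hst'] at hs'
    subst hs'
    rw [cn_iff]
    have h3 : (fun y => EV enc (G i) V (fun n x => n = enc (st x)) R (s false) y) =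
        fun y => (G i).ev st R (s false) y :=
      funext fun y => propext (ev_iff (G i) R hst' _ y)
    rw [h3]
    exact h2 i _ hσ

end Pool.Agent.H88.DI
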