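import Pool.Agent.H8.DI.Targets

/-!
# Module ST of the board dik_modules: from structures to tilings
-/

set_option autoImplicit false

namespace Pool.Agent.H88.DI

open Pool.Agent.H16.TO Pool.Agent.H8.DI

theorem pf_st (hCN : K_CN) (hNT : K_NT) : K_ST := by
  intro V Q _ U Hh Vv st E F M N hC hL
  obtain ⟨C, hfin, α, β, lx, ly, q, ρ, υ, hnet, hcard⟩ := hCN V Q U Hh Vv st E F M N hC hL
  obtain ⟨W, H, hW, hH, ht, hg⟩ := hNT C Q U Hh Vv α β lx ly q ρ υ hnet
  exact ⟨W, H, hW, hH, ht, hcard.trans (hg sz)⟩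

end Pool.Agent.H88.DI
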